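import Pool.Agent.BoltzM.C3.Cancel

/-! Elementary bounds: Gaussian moments, the error terms of the cancellation lemma,
square integrability for the truncated collision measure. -/

open MeasureTheory Real Set
open scoped ENNReal RealInnerProductSpace

noncomputable section

namespace Pool.Agent.BoltzM.C3

open Pool.Agent.BoltzM.Coll

variable [Dim]

lemma gauss_poly (n : ℕ) {c : ℝ} (hc : 0 < c) {x : ℝ} (hx : 0 ≤ x) :
    (1 + x) ^ n * exp (-(c * x ^ 2)) ≤ exp ((n : ℝ) ^ 2 / (4 * c)) := by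
  have h1 : (1 + x) ^ n ≤ exp (n * x) := by
    rw [exp_nat_mul]
    exact pow_le_pow_left₀ (by linarith) (by linarith [add_one_le_exp x]) n
  calc (1 + x) ^ n * exp (-(c * x ^ 2)) ≤ exp (n * x) * exp (-(c * x ^ 2)) := by gcongr
    _ = exp (n * x - c * x ^ 2) := by rw [← exp_add]; ring_nf
    _ ≤ _ := by
      refine exp_le_exp.2 ?_
      rw [le_div_iff₀ (by positivity)]
      nlinarith [sq_nonneg ((n : ℝ) - 2 * c * x)]

lemma sM_poly (n : ℕ) (v : E) : (1 + ‖v‖) ^ n * sM v ≤ exp ((n : ℝ) ^ 2) := by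
  have := gauss_poly n (c := 1 / 4) (by norm_num) (norm_nonneg v)
  rw [show (n : ℝ) ^ 2 / (4 * (1 / 4)) = (n : ℝ) ^ 2 by ring,
    show -(1 / 4 * ‖v‖ ^ 2) = -‖v‖ ^ 2 / 4 by ring] at this
  exact this

/-- an integrable weight -/
def jap (z : E) : ℝ := ((1 + ‖z‖) ^ (dd + 1))⁻¹

lemma jap_pos (z : E) : 0 < jap z := by unfold jap; positivity

@[fun_prop] lemma measurable_jap : Measurable jap := by unfold jap; fun_prop

lemma integrable_jap : Integrable jap := by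
  have := integrable_one_add_norm (E := E) (μ := volume) (r := ((dd + 1 : ℕ) : ℝ)) (by simp)
  refine this.congr (ae_of_all _ fun z => ?_)
  simp only [jap]
  rw [rpow_neg (by positivity), rpow_natCast]

lemma lint_jap : ∫⁻ z, ENNReal.ofReal (jap z) ≠ ⊤ := integrable_jap.lintegral_lt_top.ne

lemma le_jap {n : ℕ} {f C : ℝ} {z : E} (h : (1 + ‖z‖) ^ (n + (dd + 1)) * f ≤ C) :
    (1 + ‖z‖) ^ n * f ≤ C * jap z := by
  rw [jap, ← div_eq_mul_inv, le_div_iff₀ (by positivity)]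
  calc (1 + ‖z‖) ^ n * f * (1 + ‖z‖) ^ (dd + 1) = (1 + ‖z‖) ^ (n + (dd + 1)) * f := by
        rw [pow_add _ n]; ring
    _ ≤ C := h

/-- the Newton kernel near the origin -/
def newt (u : E) : ℝ≥0∞ := (Metric.ball (0 : E) 1).indicator (fun u => ENNReal.ofReal ‖u‖⁻¹) u

lemma measurable_newt : Measurable newt :=
  Measurable.indicator (by fun_prop) measurableSet_ball

lemma lint_newt : ∫⁻ u, newt u ≠ ⊤ := by
  rw [lintegral_polar _ measurable_newt]
  have h : ∀ o : S2, ∫⁻ r in Ioi (0 : ℝ), ENNReal.ofReal (r ^ (dd - 1)) * newt (r • (o : E)) ≤ 1 := by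
    intro o
    calc ∫⁻ r in Ioi (0 : ℝ), ENNReal.ofReal (r ^ (dd - 1)) * newt (r • (o : E))
        ≤ ∫⁻ r in Ioi (0 : ℝ), (Ioo (0 : ℝ) 1).indicator 1 r := by
          refine setLIntegral_mono' measurableSet_Ioi fun r hr => ?_
          have hr' : 0 < r := hr
          by_cases h1 : r < 1
          · have : r • (o : E) ∈ Metric.ball (0 : E) 1 := by
              simp [norm_smul, abs_of_pos hr', h1]
            rw [newt, indicator_of_mem this, indicator_of_mem (show r ∈ Ioo (0 : ℝ) 1 from ⟨hr', h1⟩),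
              ← ENNReal.ofReal_mul (by positivity), Pi.one_apply, ENNReal.ofReal_le_one]
            rw [norm_smul, norm_coe, mul_one, Real.norm_eq_abs, abs_of_pos hr',
              mul_inv_le_iff₀ hr', one_mul]
            exact pow_le_of_le_one hr'.le h1.le (by have := two_le_dd; omega)
          · have : r • (o : E) ∉ Metric.ball (0 : E) 1 := by
              simp [norm_smul, abs_of_pos hr', not_lt.1 h1]
            rw [newt, indicator_of_notMem this, mul_zero]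
            exact zero_le
      _ ≤ ∫⁻ r, (Ioo (0 : ℝ) 1).indicator 1 r := setLIntegral_le_lintegral _ _
      _ = 1 := by rw [lintegral_indicator measurableSet_Ioo]; simp
  refine ne_top_of_le_ne_top ?_ (lintegral_mono h)
  rw [lintegral_const, one_mul]
  exact measure_ne_top _ _

lemma one_add_sub_le (v z : E) : 1 + ‖v - z‖ ≤ (1 + ‖v‖) * (1 + ‖z‖) := by
  nlinarith [norm_sub_le v z, norm_nonneg v, norm_nonneg z, mul_nonneg (norm_nonneg v) (norm_nonneg z)]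

lemma conv_bound : ∃ C : ℝ≥0∞, C ≠ ⊤ ∧ ∀ v : E,
    ∫⁻ u, cbar ‖u‖ * ENNReal.ofReal (sM (v - u)) ≤ C * ENNReal.ofReal ((1 + ‖v‖) ^ 1) := by
  have hcb := cb_pos
  set A : ℝ := cb * exp ((1 + (dd + 1) : ℕ) ^ 2) with hA
  have hA0 : 0 < A := by positivity
  refine ⟨ENNReal.ofReal A * ((∫⁻ z, ENNReal.ofReal (jap z)) + ∫⁻ u, newt u),
    ENNReal.mul_ne_top ENNReal.ofReal_ne_top (ENNReal.add_ne_top.2 ⟨lint_jap, lint_newt⟩),
    fun v => ?_⟩
  have h1 : ∀ u : E, cbar ‖u‖ * ENNReal.ofReal (sM (v - u))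
      ≤ ENNReal.ofReal (A * (1 + ‖v‖) ^ 1) * (ENNReal.ofReal (jap (v - u)) + newt u) := by
    intro u
    have hs := sM_pos (v - u)
    have h2 : (1 + ‖u‖) ^ 1 * sM (v - u) ≤ (1 + ‖v‖) ^ 1 * (exp ((1 + (dd + 1) : ℕ) ^ 2) * jap (v - u)) := by
      have h3 : 1 + ‖u‖ ≤ (1 + ‖v‖) * (1 + ‖v - u‖) := by
        simpa using one_add_sub_le v (v - u)
      calc (1 + ‖u‖) ^ 1 * sM (v - u) ≤ ((1 + ‖v‖) * (1 + ‖v - u‖)) ^ 1 * sM (v - u) := by gcongr
        _ = (1 + ‖v‖) ^ 1 * ((1 + ‖v - u‖) ^ 1 * sM (v - u)) := by rw [mul_pow, mul_assoc]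
        _ ≤ _ := mul_le_mul_of_nonneg_left (le_jap (n := 1) (sM_poly (1 + (dd + 1)) _)) (by positivity)
    have hj : jap (v - u) ≤ 1 := by
      unfold jap
      exact inv_le_one_of_one_le₀ (one_le_pow₀ (by linarith [norm_nonneg (v - u)]))
    have hj0 := jap_pos (v - u)
    have h4 : cb * (1 + ‖u‖) ^ 1 / ‖u‖ * sM (v - u)
        ≤ A * (1 + ‖v‖) ^ 1 * (jap (v - u) * ‖u‖⁻¹) := by
      calc cb * (1 + ‖u‖) ^ 1 / ‖u‖ * sM (v - u)
          = cb * ‖u‖⁻¹ * ((1 + ‖u‖) ^ 1 * sM (v - u)) := by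
            generalize (1 + ‖u‖) ^ 1 = Z; ring
        _ ≤ cb * ‖u‖⁻¹ * ((1 + ‖v‖) ^ 1 * (exp ((1 + (dd + 1) : ℕ) ^ 2) * jap (v - u))) := by gcongr
        _ = _ := by rw [hA]; generalize (1 + ‖v‖) ^ 1 = Z; ring
    rw [cbar, ← ENNReal.ofReal_mul (by positivity)]
    refine (ENNReal.ofReal_le_ofReal h4).trans ?_
    rw [ENNReal.ofReal_mul (by positivity)]
    refine mul_le_mul_right ?_ _
    by_cases hu : u ∈ Metric.ball (0 : E) 1
    · rw [newt, indicator_of_mem hu]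
      exact le_add_left (ENNReal.ofReal_le_ofReal (mul_le_of_le_one_left (by positivity) hj))
    · have : 1 ≤ ‖u‖ := by simpa using hu
      exact le_add_right (ENNReal.ofReal_le_ofReal
        (mul_le_of_le_one_right hj0.le (inv_le_one_of_one_le₀ this)))
  have hm : Measurable fun u : E => ENNReal.ofReal (jap (v - u)) := by fun_prop
  calc _ ≤ ∫⁻ u, ENNReal.ofReal (A * (1 + ‖v‖) ^ 1) * (ENNReal.ofReal (jap (v - u)) + newt u) :=
        lintegral_mono h1
    _ = _ := by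
      rw [lintegral_const_mul' _ _ ENNReal.ofReal_ne_top, lintegral_add_left hm,
        lintegral_sub_left_eq_self (fun z => ENNReal.ofReal (jap z)) v, ENNReal.ofReal_mul hA0.le]
      ring

/-- weighted square norm of order 1 -/
def N8 (g : E → ℝ) : ℝ≥0∞ := ∫⁻ v, ENNReal.ofReal ((1 + ‖v‖) ^ 1 * g v ^ 2)

lemma err_max : ∃ C : ℝ≥0∞, C ≠ ⊤ ∧ ∀ g : E → ℝ, Measurable g →
    err (fun q => g q.1 ^ 2 * sM q.2 ^ 2) ≤ C * N8 g := by
  obtain ⟨C, hC, h⟩ := conv_bound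
  refine ⟨C, hC, fun g hg => ?_⟩
  rw [err, N8, ← lintegral_const_mul _ (by fun_prop)]
  refine lintegral_mono fun v => ?_
  calc ∫⁻ u, cbar ‖u‖ * ENNReal.ofReal |g v ^ 2 * sM (v - u) ^ 2|
      ≤ ∫⁻ u, cbar ‖u‖ * ENNReal.ofReal (sM (v - u)) * ENNReal.ofReal (g v ^ 2) := by
        refine lintegral_mono fun u => ?_
        simp only
        rw [mul_assoc, ← ENNReal.ofReal_mul (sM_pos _).le, abs_of_nonneg (by positivity)]
        refine mul_le_mul_right (ENNReal.ofReal_le_ofReal ?_) _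
        have := sM_pos (v - u)
        have := sM_le_one (v - u)
        rw [mul_comm]
        gcongr
        nlinarith
    _ ≤ C * ENNReal.ofReal ((1 + ‖v‖) ^ 1) * ENNReal.ofReal (g v ^ 2) := by
        rw [lintegral_mul_const _ (by fun_prop)]
        exact mul_le_mul_left (h v) _
    _ = _ := by rw [mul_assoc, ← ENNReal.ofReal_mul (by positivity)]

lemma err_cross : ∃ C : ℝ≥0∞, C ≠ ⊤ ∧ ∀ g : E → ℝ, Measurable g →
    err (fun q => g q.1 * sM q.1 * (g q.2 * sM q.2)) ≤ C * L2L g := by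
  obtain ⟨C, hC, h⟩ := conv_bound
  set A : ℝ≥0∞ := C * ENNReal.ofReal (exp ((1 : ℕ) ^ 2)) with hA
  refine ⟨A + A, ENNReal.add_ne_top.2 ⟨ENNReal.mul_ne_top hC ENNReal.ofReal_ne_top,
    ENNReal.mul_ne_top hC ENNReal.ofReal_ne_top⟩, fun g hg => ?_⟩
  set F : E × E → ℝ≥0∞ := fun q =>
    cbar ‖q.1 - q.2‖ * ENNReal.ofReal (sM q.2) * ENNReal.ofReal (sM q.1 * g q.1 ^ 2) with hF
  have hFm : Measurable F := by fun_prop
  have hb : ∫⁻ v, ∫⁻ z, F (v, z) ≤ A * L2L g := by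
    rw [L2L, ← lintegral_const_mul _ (by fun_prop)]
    refine lintegral_mono fun v => ?_
    simp only [hF]
    rw [lintegral_mul_const _ (by fun_prop), ← lintegral_sub_left_eq_self _ v]
    simp only [sub_sub_cancel]
    calc _ ≤ C * ENNReal.ofReal ((1 + ‖v‖) ^ 1) * ENNReal.ofReal (sM v * g v ^ 2) :=
          mul_le_mul_left (h v) _
      _ ≤ _ := by
        rw [hA, mul_assoc, mul_assoc, ← ENNReal.ofReal_mul (by positivity),
          ← ENNReal.ofReal_mul (by positivity), ← mul_assoc]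
        exact mul_le_mul_right (ENNReal.ofReal_le_ofReal
          (mul_le_mul_of_nonneg_right (sM_poly 1 v) (sq_nonneg _))) _
  have hb2 : ∫⁻ v, ∫⁻ z, F (z, v) ≤ A * L2L g := by
    rw [lintegral_lintegral_swap (f := fun v z => F (z, v))
      (hFm.comp measurable_swap).aemeasurable]
    exact hb
  have h1 : err (fun q => g q.1 * sM q.1 * (g q.2 * sM q.2))
      ≤ ∫⁻ v, ∫⁻ z, (F (v, z) + F (z, v)) := by
    refine lintegral_mono fun v => ?_
    simp only
    rw [← lintegral_sub_left_eq_self (fun z => F (v, z) + F (z, v)) v]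
    refine lintegral_mono fun u => ?_
    simp only [hF, sub_sub_cancel, sub_sub_cancel_left, norm_neg, mul_assoc]
    rw [← mul_add, ← ENNReal.ofReal_mul (sM_pos _).le, ← ENNReal.ofReal_mul (sM_pos _).le,
      ← ENNReal.ofReal_add (by have := sM_pos v; have := sM_pos (v - u); positivity)
        (by have := sM_pos v; have := sM_pos (v - u); positivity)]
    refine mul_le_mul_right (ENNReal.ofReal_le_ofReal ?_) _
    have h2 := mul_pos (sM_pos v) (sM_pos (v - u))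
    rw [abs_le]
    constructor <;> nlinarith [mul_nonneg h2.le (sq_nonneg (g v - g (v - u))),
      mul_nonneg h2.le (sq_nonneg (g v + g (v - u))), mul_nonneg h2.le (sq_nonneg (g v)),
      mul_nonneg h2.le (sq_nonneg (g (v - u)))]
  refine h1.trans ?_
  have hm1 : ∀ v : E, Measurable fun z => F (v, z) := fun v => hFm.comp (by fun_prop)
  simp only [lintegral_add_left (hm1 _)]
  rw [lintegral_add_left hFm.lintegral_prod_right', add_mul]
  exact add_le_add hb hb2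

/-- measurable with decay of order `dd + 30` -/
def Dec (f : E → ℝ) : Prop := Measurable f ∧ ∃ K : ℝ, ∀ x, (1 + ‖x‖) ^ (dd + 30) * |f x| ≤ K

lemma dec_sM : Dec sM :=
  ⟨measurable_sM, exp ((dd + 30 : ℕ) ^ 2), fun x => by
    rw [abs_of_pos (sM_pos x)]; exact sM_poly (dd + 30) x⟩

lemma Dec.near {f : E → ℝ} (hf : Dec f) : ∃ K : ℝ, 0 ≤ K ∧ ∀ x v : E, ‖x - v‖ ≤ 1 →
    (1 + ‖v‖) ^ (30 + (dd + 1)) * f x ^ 2 ≤ K := by
  obtain ⟨K, hK⟩ := hf.2
  refine ⟨2 ^ (30 + (dd + 1)) * K ^ 2, by positivity, fun x v h => ?_⟩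
  have h1 : 1 + ‖v‖ ≤ 2 * (1 + ‖x‖) := by
    have := norm_sub_norm_le v x
    rw [norm_sub_rev] at this
    linarith [norm_nonneg x]
  have h2 : (1 + ‖x‖) ^ (30 + (dd + 1)) ≤ ((1 + ‖x‖) ^ (dd + 30)) ^ 2 := by
    rw [← pow_mul]
    exact pow_le_pow_right₀ (by linarith [norm_nonneg x]) (by omega)
  calc (1 + ‖v‖) ^ (30 + (dd + 1)) * f x ^ 2 ≤ (2 * (1 + ‖x‖)) ^ (30 + (dd + 1)) * f x ^ 2 := by
        gcongr
    _ ≤ 2 ^ (30 + (dd + 1)) * ((1 + ‖x‖) ^ (dd + 30)) ^ 2 * f x ^ 2 := by rw [mul_pow]; gcongr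
    _ = 2 ^ (30 + (dd + 1)) * ((1 + ‖x‖) ^ (dd + 30) * |f x|) ^ 2 := by
        rw [mul_pow _ |f x|, sq_abs, mul_assoc]
    _ ≤ 2 ^ (30 + (dd + 1)) * K ^ 2 := by gcongr; exact hK x

lemma integrable_jj : Integrable (fun p : E × E × S2 => jap p.1 * jap p.2.1) mu3 := by
  have h1 : Integrable (fun q : E × S2 => jap q.1) mu2 := by
    have := integrable_jap.mul_prod (integrable_const (μ := sph) (1 : ℝ))
    simpa [mu2] using this
  exact integrable_jap.mul_prod h1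

lemma norm_rpow_le (u : E) {a : ℝ} {n : ℕ} (ha : 0 ≤ a) (han : a ≤ n) :
    ‖u‖ ^ a ≤ (1 + ‖u‖) ^ n := by
  calc ‖u‖ ^ a ≤ (1 + ‖u‖) ^ a := by gcongr; linarith
    _ ≤ (1 + ‖u‖) ^ (n : ℝ) := rpow_le_rpow_of_exponent_le (by linarith [norm_nonneg u]) han
    _ = _ := rpow_natCast _ _

lemma phi_le_eps {ε : ℝ} (hε : 0 < ε) (t : ℝ) : phi ε t ≤ ε ^ (-(101 / 100) : ℝ) := by
  by_cases h : t ∈ win ε
  · rw [phi, indicator_of_mem h]
    exact rpow_le_rpow_of_nonpos hε h.1 (by norm_num)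
  · rw [phi, indicator_of_notMem h]; positivity

lemma memLp2 {ε : ℝ} (hε : 0 < ε) {f h : E → ℝ} (hf : Dec f) (hh : Dec h)
    {x y : E × E × S2 → E} (hx : Measurable x) (hy : Measurable y)
    (hx1 : ∀ p, ‖x p - p.1‖ ≤ |rho p|) (hy1 : ∀ p, ‖y p - p.2.1‖ ≤ |rho p|) :
    MemLp (fun p => f (x p) * h (y p)) 2 (mm ε) := by
  have hm : Measurable fun p => f (x p) * h (y p) := (hf.1.comp hx).mul (hh.1.comp hy)
  obtain ⟨K1, hK1, h1⟩ := hf.near
  obtain ⟨K2, hK2, h2⟩ := hh.near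
  rw [memLp_two_iff_integrable_sq hm.aestronglyMeasurable, mm,
    integrable_withDensity_iff (by fun_prop) (ae_of_all _ fun p => ENNReal.ofReal_lt_top)]
  refine (integrable_jj.const_mul (2 * ε ^ (-(101 / 100) : ℝ) * K1 * K2)).mono'
    (Measurable.aestronglyMeasurable (by fun_prop)) (ae_of_all _ fun p => ?_)
  have hj1 := jap_pos p.1
  have hj2 := jap_pos p.2.1
  rw [ENNReal.toReal_ofReal (kc_nonneg ε p), Real.norm_eq_abs,
    abs_of_nonneg (mul_nonneg (sq_nonneg _) (kc_nonneg ε p))]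
  by_cases hr : 1 < |rho p|
  · rw [kc, phi_eq_zero hr, mul_zero, mul_zero]; positivity
  · have a1 := h1 _ _ ((hx1 p).trans (not_lt.1 hr))
    have a2 := h2 _ _ ((hy1 p).trans (not_lt.1 hr))
    have b1 : (1 + ‖p.1‖) ^ 30 * f (x p) ^ 2 ≤ K1 * jap p.1 := le_jap a1
    have b2 : (1 + ‖p.2.1‖) ^ 30 * h (y p) ^ 2 ≤ K2 * jap p.2.1 := le_jap a2
    have c1 : kc ε p ≤ 2 * ((1 + ‖p.1‖) * (1 + ‖p.2.1‖)) ^ 30 * ε ^ (-(101 / 100) : ℝ) := by
      unfold kc
      have := (norm_rpow_le (p.1 - p.2.1) (a := 3) (n := 30) (by norm_num) (by norm_num)).trans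
        (pow_le_pow_left₀ (by positivity) (one_add_sub_le p.1 p.2.1) 30)
      have := phi_le_eps hε (rho p)
      have := phi_nonneg ε (rho p)
      gcongr
    calc (f (x p) * h (y p)) ^ 2 * kc ε p
        ≤ (f (x p) * h (y p)) ^ 2 * (2 * ((1 + ‖p.1‖) * (1 + ‖p.2.1‖)) ^ 30 * ε ^ (-(101 / 100) : ℝ)) := by
          gcongr
      _ = 2 * ε ^ (-(101 / 100) : ℝ) * ((1 + ‖p.1‖) ^ 30 * f (x p) ^ 2)
          * ((1 + ‖p.2.1‖) ^ 30 * h (y p) ^ 2) := by
          rw [mul_pow (1 + ‖p.1‖)]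
          generalize (1 + ‖p.1‖) ^ 30 = Z1
          generalize (1 + ‖p.2.1‖) ^ 30 = Z2
          ring
      _ ≤ 2 * ε ^ (-(101 / 100) : ℝ) * (K1 * jap p.1) * (K2 * jap p.2.1) := by gcongr
      _ = _ := by ring

end Pool.Agent.BoltzM.C3
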