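import Pool.Agent.BoltzM.Geo.BP
import Pool.Agent.BoltzM.Coll.Symm
import Pool.Agent.BoltzM.Coll.Arch

/-! The truncated collision measure, its two marginals and the cancellation lemma. -/

open MeasureTheory Real Set
open scoped ENNReal RealInnerProductSpace

noncomputable section

namespace Pool.Agent.BoltzM.C3

open Pool.Agent.BoltzM.Coll

variable [Dim]

/-- signed length of the jump -/
def rho (p : E × E × S2) : ℝ := ⟪p.1 - p.2.1, (p.2.2 : E)⟫

/-- the range of jump lengths that is kept -/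
def win (ε : ℝ) : Set ℝ := {t | ε ≤ |t| ∧ |t| ≤ 1}

lemma measurableSet_win (ε : ℝ) : MeasurableSet (win ε) :=
  (measurableSet_le measurable_const measurable_norm).inter
    (measurableSet_le measurable_norm measurable_const)

/-- truncated singular factor -/
def phi (ε t : ℝ) : ℝ := (win ε).indicator (fun t => |t| ^ (-(101 / 100) : ℝ)) t

lemma phi_nonneg (ε t : ℝ) : 0 ≤ phi ε t :=
  indicator_nonneg (fun t _ => rpow_nonneg (abs_nonneg t) _) t

@[fun_prop] lemma measurable_phi (ε : ℝ) : Measurable (phi ε) :=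
  (Measurable.pow_const (by fun_prop) _).indicator (measurableSet_win ε)

lemma phi_neg (ε t : ℝ) : phi ε (-t) = phi ε t := by
  simp only [phi, indicator, win, mem_setOf_eq, abs_neg]

lemma phi_le (ε t : ℝ) : phi ε t ≤ |t| ^ (-(101 / 100) : ℝ) :=
  indicator_le_self' (fun t _ => rpow_nonneg (abs_nonneg t) _) t

lemma phi_eq_zero {ε t : ℝ} (h : 1 < |t|) : phi ε t = 0 :=
  indicator_of_notMem (fun h' => absurd h'.2 (not_le.2 h)) _

@[fun_prop] lemma measurable_rho : Measurable rho := by unfold rho; fun_prop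

lemma rho_coll (p : E × E × S2) : rho (coll p) = -rho p := inner_pv_sub_pw _ _ _

lemma rho_swp (p : E × E × S2) : rho (swp p) = -rho p := by
  simp only [rho, swp]; rw [← neg_sub, inner_neg_left]

/-- truncated kernel -/
def kc (ε : ℝ) (p : E × E × S2) : ℝ := 2 * ‖p.1 - p.2.1‖ ^ (3 : ℝ) * phi ε (rho p)

lemma kc_nonneg (ε : ℝ) (p : E × E × S2) : 0 ≤ kc ε p :=
  mul_nonneg (by positivity) (phi_nonneg _ _)

lemma kc_le (ε : ℝ) (p : E × E × S2) : kc ε p ≤ ker3 p :=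
  mul_le_mul_of_nonneg_left (phi_le _ _) (by positivity)

@[fun_prop] lemma measurable_kc (ε : ℝ) : Measurable (kc ε) := by
  unfold kc
  exact Measurable.mul (Measurable.mul measurable_const (Measurable.pow_const (by fun_prop) _))
    (by fun_prop)

lemma kc_coll (ε : ℝ) (p : E × E × S2) : kc ε (coll p) = kc ε p := by
  rw [kc, kc, rho_coll, phi_neg]
  simp only [coll, norm_pv_sub_pw]

lemma kc_swp (ε : ℝ) (p : E × E × S2) : kc ε (swp p) = kc ε p := by
  rw [kc, kc, rho_swp, phi_neg]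
  simp only [swp, norm_sub_rev]

/-- the truncated collision measure -/
def mm (ε : ℝ) : Measure (E × E × S2) := mu3.withDensity fun p => ENNReal.ofReal (kc ε p)

lemma lint_mm (ε : ℝ) {F : E × E × S2 → ℝ≥0∞} (hF : Measurable F) :
    ∫⁻ p, F p ∂mm ε = ∫⁻ p, ENNReal.ofReal (kc ε p) * F p ∂mu3 :=
  lintegral_withDensity_eq_lintegral_mul _ (by fun_prop) hF

lemma mp_coll (ε : ℝ) : MeasurePreserving coll (mm ε) (mm ε) := by
  refine ⟨measurable_coll, Measure.ext_of_lintegral _ fun F hF => ?_⟩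
  have h1 : Measurable fun p => F (coll p) := hF.comp measurable_coll
  have h2 : Measurable fun p => ENNReal.ofReal (kc ε p) * F p := Measurable.mul (by fun_prop) hF
  rw [lintegral_map hF measurable_coll, lint_mm ε h1, lint_mm ε hF, ← lintegral_coll _ h2]
  simp only [kc_coll]

lemma mp_swp (ε : ℝ) : MeasurePreserving swp (mm ε) (mm ε) := by
  refine ⟨measurable_swp, Measure.ext_of_lintegral _ fun F hF => ?_⟩
  have h1 : Measurable fun p => F (swp p) := hF.comp measurable_swp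
  have h2 : Measurable fun p => ENNReal.ofReal (kc ε p) * F p := Measurable.mul (by fun_prop) hF
  rw [lintegral_map hF measurable_swp, lint_mm ε h1, lint_mm ε hF, ← lintegral_swp _ h2]
  simp only [kc_swp]

lemma int_coll (ε : ℝ) (F : E × E × S2 → ℝ) : ∫ p, F (coll p) ∂mm ε = ∫ p, F p ∂mm ε :=
  (mp_coll ε).integral_comp collE.measurableEmbedding F

lemma int_swp (ε : ℝ) (F : E × E × S2 → ℝ) : ∫ p, F (swp p) ∂mm ε = ∫ p, F p ∂mm ε :=
  (mp_swp ε).integral_comp swpE.measurableEmbedding F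

/-- marginal kernel before the collision -/
def k0 (ε : ℝ) (u : E) : ℝ≥0∞ :=
  ∫⁻ o : S2, ENNReal.ofReal (2 * ‖u‖ ^ (3 : ℝ) * phi ε ⟪u, (o : E)⟫) ∂sph

/-- marginal kernel after the collision -/
def k1 (ε r : ℝ) : ℝ≥0∞ :=
  ENNReal.ofReal (cS / r) *
    ∫⁻ t, ENNReal.ofReal (2 * (t ^ 2 + r ^ 2) ^ (3 / 2 : ℝ) * phi ε t)

/-- the common main part of the two marginal kernels -/
def km (ε r : ℝ) : ℝ≥0∞ :=
  ENNReal.ofReal (cS / r) *
    ∫⁻ t in Ioo (-(r / 2)) (r / 2), ENNReal.ofReal (2 * r ^ (3 : ℝ) * phi ε t)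

/-- constant in the bound for the difference of the marginal kernels -/
def cb : ℝ := (304 + 4 * dd) * cS + 12 * cT

lemma cb_pos : 0 < cb := by
  have := cS_pos
  have := cT_pos
  unfold cb; positivity

/-- bound for the difference of the marginal kernels -/
def cbar (r : ℝ) : ℝ≥0∞ := ENNReal.ofReal (cb * (1 + r) ^ 1 / r)

@[fun_prop] lemma measurable_cbar : Measurable cbar := by unfold cbar; fun_prop

lemma sq_rpow {r : ℝ} (hr : 0 ≤ r) : (r ^ 2) ^ (3 / 2 : ℝ) = r ^ (3 : ℝ) := by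
  rw [← rpow_natCast, ← rpow_mul hr]; norm_num

lemma marg0 (ε : ℝ) {H : E × E → ℝ≥0∞} (hH : Measurable H) :
    ∫⁻ p, H (p.1, p.2.1) ∂mm ε = ∫⁻ v, ∫⁻ u, k0 ε u * H (v, v - u) := by
  have h1 : Measurable fun p : E × E × S2 => H (p.1, p.2.1) := hH.comp (by fun_prop)
  have h2 : Measurable fun p : E × E × S2 => ENNReal.ofReal (kc ε p) * H (p.1, p.2.1) :=
    Measurable.mul (by fun_prop) h1
  rw [lint_mm ε h1, lintegral_mu3 _ h2]
  refine lintegral_congr fun v => ?_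
  rw [← lintegral_sub_left_eq_self _ v]
  refine lintegral_congr fun u => ?_
  simp only [kc, rho, sub_sub_cancel]
  rw [lintegral_mul_const _ (by fun_prop), k0]

lemma marg1 (ε : ℝ) {H : E × E → ℝ≥0∞} (hH : Measurable H) :
    ∫⁻ p, H (p.1, pw p.1 p.2.1 p.2.2) ∂mm ε = ∫⁻ v, ∫⁻ u, k1 ε ‖u‖ * H (v, v - u) := by
  have h1 : Measurable fun p : E × E × S2 => H (p.1, pw p.1 p.2.1 p.2.2) := hH.comp (by fun_prop)
  have h2 : Measurable fun p : E × E × S2 =>
      ENNReal.ofReal (kc ε p) * H (p.1, pw p.1 p.2.1 p.2.2) := Measurable.mul (by fun_prop) h1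
  rw [lint_mm ε h1, lintegral_mu3 _ h2]
  refine lintegral_congr fun v => ?_
  have h3 : Measurable (Function.uncurry fun (w : E) (o : S2) =>
      ENNReal.ofReal (kc ε (v, w, o)) * H (v, pw v w o)) :=
    h2.comp (f := fun q : E × S2 => (v, q.1, q.2)) (by fun_prop)
  rw [lintegral_lintegral_swap h3.aemeasurable]
  have hk : Measurable fun q : ℝ × E =>
      ENNReal.ofReal (2 * (q.1 ^ 2 + ‖q.2‖ ^ 2) ^ (3 / 2 : ℝ) * phi ε q.1) :=
    ENNReal.measurable_ofReal.comp (Measurable.mul (Measurable.mul measurable_const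
      (Measurable.pow_const (by fun_prop) _)) (by fun_prop))
  have hΦ : Measurable (Function.uncurry fun (t : ℝ) (y : E) =>
      ENNReal.ofReal (2 * (t ^ 2 + ‖y‖ ^ 2) ^ (3 / 2 : ℝ) * phi ε t) * H (v, v - y)) :=
    hk.mul (hH.comp (by fun_prop))
  have h4 := Geo.bp _ hΦ
  refine Eq.trans ?_ (h4.trans ?_)
  · refine lintegral_congr fun o => ?_
    rw [← lintegral_sub_left_eq_self _ v]
    refine lintegral_congr fun u => ?_
    have : pw v (v - u) o = v - Geo.perp o u := by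
      simp only [pw, Geo.perp, sub_sub_cancel]; abel
    simp only [kc, rho, sub_sub_cancel, this]
    rw [← Geo.norm_sq_eq_perp (norm_coe o), sq_rpow (norm_nonneg u)]
  · refine lintegral_congr fun y => ?_
    have hk2 : Measurable fun t : ℝ =>
        ENNReal.ofReal (2 * (t ^ 2 + ‖y‖ ^ 2) ^ (3 / 2 : ℝ) * phi ε t) :=
      hk.comp (f := fun t : ℝ => (t, y)) (by fun_prop)
    rw [lintegral_mul_const _ hk2, k1, mul_assoc]

lemma km_le_k1 (ε : ℝ) {r : ℝ} (hr : 0 ≤ r) : km ε r ≤ k1 ε r := by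
  unfold km k1
  refine mul_le_mul_right ((setLIntegral_le_lintegral _ _).trans (lintegral_mono fun t => ?_)) _
  refine ENNReal.ofReal_le_ofReal (mul_le_mul_of_nonneg_right ?_ (phi_nonneg _ _))
  rw [← sq_rpow hr]
  gcongr
  nlinarith [sq_nonneg t]

lemma rpow_tangent {x y : ℝ} (hx : 0 ≤ x) (hxy : x ≤ y) :
    y ^ (3 / 2 : ℝ) ≤ x ^ (3 / 2 : ℝ) + 3 / 2 * (y - x) * y ^ (1 / 2 : ℝ) := by
  rcases (hx.trans hxy).eq_or_lt with h0 | hy
  · have : x = 0 := le_antisymm (h0 ▸ hxy) hx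
    subst this
    rw [← h0]; simp
  · have h1 := one_add_mul_self_le_rpow_one_add (s := x / y - 1) (p := 3 / 2)
      (by have : 0 ≤ x / y := by positivity
          linarith) (by norm_num)
    rw [add_sub_cancel, div_rpow hx hy.le, le_div_iff₀ (rpow_pos_of_pos hy _)] at h1
    have h2 : y ^ (3 / 2 : ℝ) = y * y ^ (1 / 2 : ℝ) := by
      rw [← rpow_one_add' hy.le (by norm_num)]; norm_num
    have h3 : (1 + 3 / 2 * (x / y - 1)) * y ^ (3 / 2 : ℝ)
        = y ^ (3 / 2 : ℝ) - 3 / 2 * (y - x) * y ^ (1 / 2 : ℝ) := by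
      rw [h2]; field_simp; ring
    linarith

lemma sq_mul_phi_le (ε t : ℝ) : t ^ 2 * phi ε t ≤ 1 := by
  by_cases ht : 1 < |t|
  · rw [phi_eq_zero ht]; simp
  · have h1 : t ^ 2 * |t| ^ (-(101 / 100) : ℝ) = |t| ^ (99 / 100 : ℝ) := by
      rw [← sq_abs, ← rpow_natCast, ← rpow_add' (abs_nonneg t) (by norm_num)]; norm_num
    calc t ^ 2 * phi ε t ≤ t ^ 2 * |t| ^ (-(101 / 100) : ℝ) :=
          mul_le_mul_of_nonneg_left (phi_le _ _) (sq_nonneg t)
      _ ≤ 1 := by rw [h1]; exact rpow_le_one (abs_nonneg t) (not_lt.1 ht) (by norm_num)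

lemma kern_diff (ε : ℝ) {r : ℝ} (hr : 0 ≤ r) (t : ℝ) :
    2 * (t ^ 2 + r ^ 2) ^ (3 / 2 : ℝ) * phi ε t
      ≤ (Ioo (-(r / 2)) (r / 2)).indicator (fun t => 2 * r ^ (3 : ℝ) * phi ε t) t
        + (Icc (-1 : ℝ) 1).indicator (fun _ => 148 * (1 + r) ^ 1) t := by
  by_cases ht : 1 < |t|
  · rw [phi_eq_zero ht, mul_zero]
    exact add_nonneg (indicator_nonneg (fun t _ => mul_nonneg (by positivity) (phi_nonneg _ _)) t)
      (indicator_nonneg (fun t _ => by positivity) t)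
  · have ht1 : t ∈ Icc (-1 : ℝ) 1 := abs_le.1 (not_lt.1 ht)
    rw [indicator_of_mem ht1]
    have ht2 : t ^ 2 ≤ 1 := by nlinarith [ht1.1, ht1.2]
    have hy : (t ^ 2 + r ^ 2) ^ (1 / 2 : ℝ) ≤ (1 + r) ^ 1 := by
      calc (t ^ 2 + r ^ 2) ^ (1 / 2 : ℝ) ≤ ((1 + r) ^ 2) ^ (1 / 2 : ℝ) := by
            gcongr; nlinarith
        _ = (1 + r) ^ 1 := by
            rw [← rpow_natCast, ← rpow_mul (by linarith)]; norm_num
    have hp := phi_nonneg ε t
    have hq := sq_mul_phi_le ε t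
    have hy0 : 0 ≤ (t ^ 2 + r ^ 2) ^ (1 / 2 : ℝ) := by positivity
    have hz : 0 ≤ (1 + r) ^ 1 := by positivity
    have key : ∀ x : ℝ, 0 ≤ x → x ≤ t ^ 2 + r ^ 2 → t ^ 2 + r ^ 2 - x ≤ 5 * t ^ 2 →
        2 * (t ^ 2 + r ^ 2) ^ (3 / 2 : ℝ) * phi ε t
          ≤ 2 * x ^ (3 / 2 : ℝ) * phi ε t + 148 * (1 + r) ^ 1 := by
      intro x hx h1 h2
      have h3 := rpow_tangent hx h1
      have h4 : (t ^ 2 + r ^ 2 - x) * (t ^ 2 + r ^ 2) ^ (1 / 2 : ℝ) * phi ε t
          ≤ 5 * (1 + r) ^ 1 := by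
        calc (t ^ 2 + r ^ 2 - x) * (t ^ 2 + r ^ 2) ^ (1 / 2 : ℝ) * phi ε t
            ≤ (5 * t ^ 2) * (1 + r) ^ 1 * phi ε t := by gcongr
          _ = 5 * (1 + r) ^ 1 * (t ^ 2 * phi ε t) := by ring
          _ ≤ 5 * (1 + r) ^ 1 * 1 := by gcongr
          _ = _ := mul_one _
      have h5 := mul_le_mul_of_nonneg_right h3 hp
      generalize (1 + r) ^ 1 = Z at *
      nlinarith
    by_cases htr : t ∈ Ioo (-(r / 2)) (r / 2)
    · rw [indicator_of_mem htr, ← sq_rpow hr]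
      exact key (r ^ 2) (sq_nonneg r) (by nlinarith [sq_nonneg t]) (by nlinarith [sq_nonneg t])
    · rw [indicator_of_notMem htr]
      have hrt : (r / 2) ^ 2 ≤ t ^ 2 := by
        rw [← sq_abs t]
        refine pow_le_pow_left₀ (by linarith) ?_ 2
        by_contra hc
        exact htr (abs_lt.1 (not_le.1 hc))
      have := key 0 le_rfl (by positivity) (by linarith)
      rw [zero_rpow (by norm_num)] at this
      linarith

lemma lint_box {r K : ℝ} (hr : 0 ≤ r) (hK : 0 ≤ K) : ENNReal.ofReal (cS / r) *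
      ∫⁻ t, (Icc (-1 : ℝ) 1).indicator (fun _ => ENNReal.ofReal (K * (1 + r) ^ 1)) t
    = ENNReal.ofReal (2 * K * cS * (1 + r) ^ 1 / r) := by
  have := cS_pos
  rw [lintegral_indicator measurableSet_Icc, setLIntegral_const, Real.volume_Icc,
    ← ENNReal.ofReal_mul (by positivity), ← ENNReal.ofReal_mul (by positivity)]
  congr 1; ring

lemma ofReal_ind (s : Set ℝ) (f : ℝ → ℝ) (t : ℝ) :
    ENNReal.ofReal (s.indicator f t) = s.indicator (fun t => ENNReal.ofReal (f t)) t := by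
  by_cases h : t ∈ s <;> simp [h]

lemma k1_le_km (ε : ℝ) {r : ℝ} (hr : 0 ≤ r) :
    k1 ε r ≤ km ε r + ENNReal.ofReal (2 * 148 * cS * (1 + r) ^ 1 / r) := by
  rw [← lint_box hr (by norm_num), km, k1, ← mul_add, ← lintegral_indicator measurableSet_Ioo,
    ← lintegral_add_right _ (measurable_const.indicator measurableSet_Icc)]
  refine mul_le_mul_right (lintegral_mono fun t => ?_) _
  refine (ENNReal.ofReal_le_ofReal (kern_diff ε hr t)).trans (ENNReal.ofReal_add_le.trans ?_)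
  rw [ofReal_ind, ofReal_ind]

lemma dens_le_near {x : ℝ} (h : x ^ 2 ≤ 1 / 2) : dens x ≤ 1 + 2 * x ^ 2 := by
  have hp : 0 < 1 - x ^ 2 := by linarith
  have h2 : (2 : ℝ) ≤ dd := by exact_mod_cast two_le_dd
  calc dens x ≤ (1 - x ^ 2) ^ (-1 : ℝ) :=
        rpow_le_rpow_of_exponent_ge hp (by nlinarith [sq_nonneg x]) (by linarith)
    _ ≤ 1 + 2 * x ^ 2 := by
        rw [rpow_neg_one, inv_le_iff_one_le_mul₀ hp]
        nlinarith [sq_nonneg x]

lemma le_dens_near {x : ℝ} (h : x ^ 2 ≤ 1 / 2) : 1 ≤ dens x + dd * x ^ 2 := by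
  have hp : 0 < 1 - x ^ 2 := by linarith
  have h2 : (0 : ℝ) ≤ dd := Nat.cast_nonneg _
  have h3 := one_add_mul_le_pow (a := -x ^ 2) (by linarith) dd
  have h4 : (1 - x ^ 2) ^ ((dd : ℕ) : ℝ) ≤ dens x :=
    rpow_le_rpow_of_exponent_ge hp (by nlinarith [sq_nonneg x]) (by linarith)
  rw [rpow_natCast] at h4
  rw [← sub_eq_add_neg] at h3
  linarith

lemma near_err (ε : ℝ) {r : ℝ} (hr : 0 < r) (t : ℝ) :
    (t / r) ^ 2 * (2 * r ^ (3 : ℝ) * phi ε t)
      ≤ (Icc (-1 : ℝ) 1).indicator (fun _ => 2 * (1 + r) ^ 1) t := by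
  by_cases ht : 1 < |t|
  · rw [phi_eq_zero ht, mul_zero, mul_zero]
    exact indicator_nonneg (fun t _ => by positivity) t
  · rw [indicator_of_mem (show t ∈ Icc (-1 : ℝ) 1 from abs_le.1 (not_lt.1 ht))]
    have h1 : r ^ (3 : ℝ) = r ^ (1 : ℝ) * r ^ 2 := by
      rw [← rpow_natCast, ← rpow_add hr]; norm_num
    have h2 : r ^ (1 : ℝ) ≤ (1 + r) ^ 1 := by
      calc r ^ (1 : ℝ) ≤ (1 + r) ^ (1 : ℝ) := by gcongr; linarith
        _ ≤ (1 + r) ^ ((1 : ℕ) : ℝ) := rpow_le_rpow_of_exponent_le (by linarith) (by norm_num)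
        _ = _ := rpow_natCast _ _
    have h3 := sq_mul_phi_le ε t
    calc (t / r) ^ 2 * (2 * r ^ (3 : ℝ) * phi ε t)
        = 2 * r ^ (1 : ℝ) * (t ^ 2 * phi ε t) := by rw [h1]; field_simp
      _ ≤ 2 * (1 + r) ^ 1 * 1 := by
          have := mul_nonneg (sq_nonneg t) (phi_nonneg ε t)
          gcongr
      _ = _ := mul_one _

lemma far_bound (ε : ℝ) {r t : ℝ} (hr : 0 < r) (ht : r / 2 ≤ |t|) :
    2 * r ^ (3 : ℝ) * phi ε t ≤ 12 * (1 + r) ^ 1 / r := by
  by_cases h1 : 1 < |t|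
  · rw [phi_eq_zero h1, mul_zero]; positivity
  · have h2 : phi ε t ≤ (r / 2) ^ (-(101 / 100) : ℝ) :=
      (phi_le ε t).trans (rpow_le_rpow_of_nonpos (by linarith) ht (by norm_num))
    have hr2 : r ≤ 2 := by linarith [not_lt.1 h1]
    have h3 : r ^ (3 : ℝ) * r ^ (-(101 / 100) : ℝ) = r ^ (99 / 100 : ℝ) * r := by
      rw [← rpow_add hr, ← rpow_add_one hr.ne']; norm_num
    have h4 : (2 : ℝ) ^ (99 / 100 : ℝ) * 2 ^ (101 / 100 : ℝ) = 4 := by
      rw [← rpow_add (by norm_num)]; norm_num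
    have h5 : (r / 2) ^ (-(101 / 100) : ℝ) = r ^ (-(101 / 100) : ℝ) * 2 ^ (101 / 100 : ℝ) := by
      rw [div_rpow hr.le (by norm_num), rpow_neg (by norm_num : (0 : ℝ) ≤ 2), div_inv_eq_mul]
    rw [le_div_iff₀ hr]
    calc 2 * r ^ (3 : ℝ) * phi ε t * r
        ≤ 2 * r ^ (3 : ℝ) * (r ^ (-(101 / 100) : ℝ) * 2 ^ (101 / 100 : ℝ)) * r := by
          rw [← h5]; gcongr
      _ = 2 * (r ^ (99 / 100 : ℝ) * 2 ^ (101 / 100 : ℝ)) * (r * r) := by
          rw [show ∀ a b c : ℝ, 2 * a * (b * c) * r = 2 * (a * b) * c * r from fun a b c => by ring,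
            h3]
          ring
      _ ≤ 2 * (2 ^ (99 / 100 : ℝ) * 2 ^ (101 / 100 : ℝ)) * (r * r) := by gcongr
      _ ≤ _ := by rw [h4]; nlinarith

lemma half_mem {r t : ℝ} (hr : 0 < r) (ht : t ∈ Ioo (-(r / 2)) (r / 2)) : (t / r) ^ 2 ≤ 1 / 2 := by
  rw [div_pow, div_le_iff₀ (by positivity)]
  nlinarith [ht.1, ht.2]

lemma km_le_k0 (ε : ℝ) (u : E) :
    km ε ‖u‖ ≤ k0 ε u + ENNReal.ofReal (2 * (2 * dd) * cS * (1 + ‖u‖) ^ 1 / ‖u‖) := by
  by_cases hu : u = 0
  · subst hu; simp [km]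
  have hr : 0 < ‖u‖ := norm_pos_iff.2 hu
  have hsub : Ioo (-(‖u‖ / 2)) (‖u‖ / 2) ⊆ Ioo (-‖u‖) ‖u‖ :=
    Ioo_subset_Ioo (by linarith) (by linarith)
  rw [← lint_box hr.le (by positivity), km, k0,
    archimedes_vec u hu (fun t => ENNReal.ofReal (2 * ‖u‖ ^ (3 : ℝ) * phi ε t)) (by fun_prop),
    ← mul_add, ← lintegral_indicator measurableSet_Ioo, ← lintegral_indicator measurableSet_Ioo,
    ← lintegral_add_right _ (measurable_const.indicator measurableSet_Icc)]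
  refine mul_le_mul_right (lintegral_mono fun t => ?_) _
  by_cases ht : t ∈ Ioo (-(‖u‖ / 2)) (‖u‖ / 2)
  · have h1 := half_mem hr ht
    have h2 := le_dens_near h1
    have h3 := near_err ε hr t
    have h0 : 0 ≤ 2 * ‖u‖ ^ (3 : ℝ) * phi ε t := mul_nonneg (by positivity) (phi_nonneg _ _)
    have hd : 0 ≤ dens (t / ‖u‖) := rpow_nonneg (by linarith) _
    simp only
    rw [indicator_of_mem ht, indicator_of_mem (hsub ht), ← ofReal_ind, ← ENNReal.ofReal_mul hd,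
      ← ENNReal.ofReal_add (mul_nonneg hd h0) (indicator_nonneg (fun t _ => by positivity) t)]
    refine ENNReal.ofReal_le_ofReal ?_
    have h4 : (Icc (-1 : ℝ) 1).indicator (fun _ => 2 * (dd : ℝ) * (1 + ‖u‖) ^ 1) t
        = (dd : ℝ) * (Icc (-1 : ℝ) 1).indicator (fun _ => 2 * (1 + ‖u‖) ^ 1) t := by
      generalize (1 + ‖u‖) ^ 1 = Z
      by_cases h : t ∈ Icc (-1 : ℝ) 1
      · simp only [indicator_of_mem h]; ring
      · simp [indicator_of_notMem h]
    have h5 := mul_le_mul_of_nonneg_left h3 (Nat.cast_nonneg (α := ℝ) dd)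
    have h6 := mul_le_mul_of_nonneg_right h2 h0
    rw [h4]
    linarith
  · simp only
    rw [indicator_of_notMem ht]; exact zero_le

lemma k0_le_km (ε : ℝ) (u : E) :
    k0 ε u ≤ km ε ‖u‖ + ENNReal.ofReal (2 * 4 * cS * (1 + ‖u‖) ^ 1 / ‖u‖)
      + ENNReal.ofReal (12 * cT * (1 + ‖u‖) ^ 1 / ‖u‖) := by
  by_cases hu : u = 0
  · subst hu; simp [k0]
  have hr : 0 < ‖u‖ := norm_pos_iff.2 hu
  set f : ℝ → ℝ≥0∞ := (Ioo (-(‖u‖ / 2)) (‖u‖ / 2)).indicator
    fun t => ENNReal.ofReal (2 * ‖u‖ ^ (3 : ℝ) * phi ε t) with hf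
  have hfm : Measurable f := Measurable.indicator (by fun_prop) measurableSet_Ioo
  have h1 : k0 ε u ≤ ∫⁻ o : S2, (f ⟪u, (o : E)⟫
      + ENNReal.ofReal (12 * (1 + ‖u‖) ^ 1 / ‖u‖)) ∂sph := by
    refine lintegral_mono fun o => ?_
    by_cases ht : ⟪u, (o : E)⟫ ∈ Ioo (-(‖u‖ / 2)) (‖u‖ / 2)
    · simp only [hf, indicator_of_mem ht]; exact le_self_add
    · refine le_add_left (ENNReal.ofReal_le_ofReal (far_bound ε hr ?_))
      by_contra hc
      exact ht (abs_lt.1 (not_le.1 hc))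
  refine h1.trans ?_
  rw [lintegral_add_right _ measurable_const, lintegral_const, sph_univ,
    ← ENNReal.ofReal_mul (by positivity), archimedes_vec u hu f hfm]
  refine add_le_add ?_ (le_of_eq (by congr 1; ring))
  rw [← lint_box hr.le (by norm_num), km, ← mul_add, ← lintegral_indicator measurableSet_Ioo,
    ← lintegral_indicator measurableSet_Ioo,
    ← lintegral_add_right _ (measurable_const.indicator measurableSet_Icc)]
  refine mul_le_mul_right (lintegral_mono fun t => ?_) _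
  refine (indicator_le_self _ _ t).trans ?_
  by_cases ht : t ∈ Ioo (-(‖u‖ / 2)) (‖u‖ / 2)
  · have h1 := half_mem hr ht
    have h2 := dens_le_near h1
    have h3 := near_err ε hr t
    have h0 : 0 ≤ 2 * ‖u‖ ^ (3 : ℝ) * phi ε t := mul_nonneg (by positivity) (phi_nonneg _ _)
    have hd : 0 ≤ dens (t / ‖u‖) := rpow_nonneg (by linarith) _
    simp only [hf]
    rw [indicator_of_mem ht, ← ofReal_ind, ← ENNReal.ofReal_mul hd,
      ← ENNReal.ofReal_add h0 (indicator_nonneg (fun t _ => by positivity) t)]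
    refine ENNReal.ofReal_le_ofReal ?_
    have h4 : (Icc (-1 : ℝ) 1).indicator (fun _ => 4 * (1 + ‖u‖) ^ 1) t
        = 2 * (Icc (-1 : ℝ) 1).indicator (fun _ => 2 * (1 + ‖u‖) ^ 1) t := by
      generalize (1 + ‖u‖) ^ 1 = Z
      by_cases h : t ∈ Icc (-1 : ℝ) 1
      · simp only [indicator_of_mem h]; ring
      · simp [indicator_of_notMem h]
    have h6 := mul_le_mul_of_nonneg_right h2 h0
    rw [h4]
    linarith
  · simp only [hf]
    rw [indicator_of_notMem ht, mul_zero]; exact zero_le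

lemma k1_le (ε : ℝ) (u : E) : k1 ε ‖u‖ ≤ k0 ε u + cbar ‖u‖ := by
  have := cS_pos
  have := cT_pos
  refine (k1_le_km ε (norm_nonneg u)).trans ((add_le_add_left (km_le_k0 ε u) _).trans ?_)
  rw [add_assoc, ← ENNReal.ofReal_add (by positivity) (by positivity), cbar, ← add_div,
    ← add_mul]
  refine add_le_add_right (ENNReal.ofReal_le_ofReal ?_) _
  gcongr
  unfold cb
  nlinarith

lemma k0_le (ε : ℝ) (u : E) : k0 ε u ≤ k1 ε ‖u‖ + cbar ‖u‖ := by
  have h1 := cS_pos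
  have := cT_pos
  refine (k0_le_km ε u).trans ?_
  rw [add_assoc, ← ENNReal.ofReal_add (by positivity) (by positivity), cbar, ← add_div,
    ← add_mul]
  refine add_le_add (km_le_k1 ε (norm_nonneg u)) (ENNReal.ofReal_le_ofReal ?_)
  gcongr
  unfold cb
  nlinarith [mul_nonneg (Nat.cast_nonneg (α := ℝ) dd) h1.le]

/-- the error term of the cancellation lemma -/
def err (H : E × E → ℝ) : ℝ≥0∞ := ∫⁻ v, ∫⁻ u, cbar ‖u‖ * ENNReal.ofReal |H (v, v - u)|

lemma cancel_aux {a b : E → ℝ≥0∞} (hab : ∀ u, a u ≤ b u + cbar ‖u‖) {G : E × E → ℝ≥0∞}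
    (hG : Measurable G) : ∫⁻ v, ∫⁻ u, a u * G (v, v - u)
      ≤ (∫⁻ v, ∫⁻ u, b u * G (v, v - u)) + ∫⁻ v, ∫⁻ u, cbar ‖u‖ * G (v, v - u) := by
  have hm : Measurable fun q : E × E => cbar ‖q.2‖ * G (q.1, q.1 - q.2) :=
    Measurable.mul (by fun_prop) (hG.comp (by fun_prop))
  rw [← lintegral_add_right _ hm.lintegral_prod_right']
  refine lintegral_mono fun v => ?_
  have hm2 : Measurable fun u : E => cbar ‖u‖ * G (v, v - u) :=
    hm.comp (f := fun u : E => (v, u)) (by fun_prop)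
  simp only
  rw [← lintegral_add_right _ hm2]
  refine lintegral_mono fun u => ?_
  simp only
  rw [← add_mul]
  exact mul_le_mul_left (hab u) _

/-- Cancellation lemma. -/
lemma cancel (ε : ℝ) {H : E × E → ℝ} (hH : Measurable H)
    (h0 : Integrable (fun p : E × E × S2 => H (p.1, p.2.1)) (mm ε))
    (h1 : Integrable (fun p : E × E × S2 => H (p.1, pw p.1 p.2.1 p.2.2)) (mm ε))
    (hE : err H ≠ ⊤) :
    ∫ p, H (p.1, pw p.1 p.2.1 p.2.2) ∂mm ε - ∫ p, H (p.1, p.2.1) ∂mm ε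
      ≤ 2 * (err H).toReal := by
  have hp : Measurable fun q => ENNReal.ofReal (H q) := by fun_prop
  have hn : Measurable fun q => ENNReal.ofReal (-H q) := by fun_prop
  rw [integral_eq_lintegral_pos_part_sub_lintegral_neg_part h0,
    integral_eq_lintegral_pos_part_sub_lintegral_neg_part h1]
  have a1 : ∫⁻ p, ENNReal.ofReal (H (p.1, pw p.1 p.2.1 p.2.2)) ∂mm ε
      ≤ ∫⁻ p, ENNReal.ofReal (H (p.1, p.2.1)) ∂mm ε + err H := by
    rw [marg1 ε hp, marg0 ε hp]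
    refine (cancel_aux (k1_le ε) hp).trans (add_le_add_right ?_ _)
    exact lintegral_mono fun v => lintegral_mono fun u =>
      mul_le_mul_right (ENNReal.ofReal_le_ofReal (le_abs_self _)) _
  have a2 : ∫⁻ p, ENNReal.ofReal (-H (p.1, p.2.1)) ∂mm ε
      ≤ ∫⁻ p, ENNReal.ofReal (-H (p.1, pw p.1 p.2.1 p.2.2)) ∂mm ε + err H := by
    rw [marg1 ε hn, marg0 ε hn]
    refine (cancel_aux (k0_le ε) hn).trans (add_le_add_right ?_ _)
    exact lintegral_mono fun v => lintegral_mono fun u =>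
      mul_le_mul_right (ENNReal.ofReal_le_ofReal (neg_le_abs _)) _
  have b1 := ENNReal.toReal_mono (ENNReal.add_ne_top.2 ⟨h0.lintegral_lt_top.ne, hE⟩) a1
  rw [ENNReal.toReal_add h0.lintegral_lt_top.ne hE] at b1
  have c1 := h1.neg.lintegral_lt_top.ne
  simp only [Pi.neg_apply] at c1
  have b2 := ENNReal.toReal_mono (ENNReal.add_ne_top.2 ⟨c1, hE⟩) a2
  rw [ENNReal.toReal_add c1 hE] at b2
  linarith

end Pool.Agent.BoltzM.C3
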