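import Pool.Agent.BoltzM.C3.Terms

/-! Expansion of the truncated dissipation. -/

open MeasureTheory Real Set
open scoped ENNReal RealInnerProductSpace

noncomputable section

namespace Pool.Agent.BoltzM.C3

open Pool.Agent.BoltzM.Coll

variable [Dim]

lemma int_le_toReal {α : Type*} [MeasurableSpace α] {μ : Measure α} {F : α → ℝ}
    (hF : Integrable F μ) {B : ℝ≥0∞} (hB : B ≠ ⊤) (h : ∫⁻ p, ENNReal.ofReal (F p) ∂μ ≤ B) :
    ∫ p, F p ∂μ ≤ B.toReal := by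
  rw [integral_eq_lintegral_pos_part_sub_lintegral_neg_part hF]
  have := ENNReal.toReal_mono hB h
  linarith [ENNReal.toReal_nonneg (a := ∫⁻ p, ENNReal.ofReal (-F p) ∂μ)]

/-- Gaussian jump functional -/
def GG (ε : ℝ) (g : E → ℝ) : ℝ≥0∞ :=
  ∫⁻ p, ENNReal.ofReal ((g (pv p.1 p.2.1 p.2.2) - g p.1) ^ 2
    * (sM p.2.1 * sM (pw p.1 p.2.1 p.2.2))) ∂mm ε

/-- multiplier functional -/
def TT (ε : ℝ) (g : E → ℝ) : ℝ≥0∞ :=
  ∫⁻ p, ENNReal.ofReal (g p.1 ^ 2)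
    * ENNReal.ofReal ((sM p.2.1 - sM (pw p.1 p.2.1 p.2.2)) ^ 2) ∂mm ε

lemma weight_ne_top {g : E → ℝ} (hg : Dec g) {W : E → ℝ} (hW : ∀ v, W v ≤ (1 + ‖v‖) ^ 30) :
    ∫⁻ v, ENNReal.ofReal (W v * g v ^ 2) ≠ ⊤ := by
  obtain ⟨K, hK, h⟩ := hg.near
  refine ne_top_of_le_ne_top (ENNReal.mul_ne_top (ENNReal.ofReal_ne_top (r := K)) lint_jap) ?_
  rw [← lintegral_const_mul' _ _ ENNReal.ofReal_ne_top]
  refine lintegral_mono fun v => ?_
  simp only
  rw [← ENNReal.ofReal_mul hK]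
  exact ENNReal.ofReal_le_ofReal ((mul_le_mul_of_nonneg_right (hW v) (sq_nonneg _)).trans
    (le_jap (n := 30) (h v v (by simp))))

lemma L2L_ne_top {g : E → ℝ} (hg : Dec g) : L2L g ≠ ⊤ := by
  have := weight_ne_top hg (W := fun _ => 1) fun v => one_le_pow₀ (by linarith [norm_nonneg v])
  simpa only [one_mul, L2L] using this

lemma N8_ne_top {g : E → ℝ} (hg : Dec g) : N8 g ≠ ⊤ :=
  weight_ne_top hg fun v => pow_le_pow_right₀ (by linarith [norm_nonneg v]) (by norm_num)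

lemma NW_ne_top {g : E → ℝ} (hg : Dec g) : NW g ≠ ⊤ :=
  weight_ne_top hg fun v => by
    rw [← rpow_natCast]
    exact rpow_le_rpow_of_exponent_le (by linarith [norm_nonneg v]) (by norm_num)

lemma two_toReal {a b c : ℝ≥0∞} (hb : b * c ≠ ⊤) (h : a ≤ b * c) :
    2 * a.toReal ≤ (2 * b * c).toReal := by
  rw [mul_assoc, ENNReal.toReal_mul, ENNReal.toReal_ofNat]
  linarith [ENNReal.toReal_mono hb h]

lemma expand : ∃ C : ℝ≥0∞, C ≠ ⊤ ∧ ∀ ε : ℝ, 0 < ε → ∀ g : E → ℝ, Dec g →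
    GG ε g + TT ε g ≤ DL g + C * N8 g + C * L2L g := by
  obtain ⟨C1, hC1, h1⟩ := err_max
  obtain ⟨C2, hC2, h2⟩ := err_cross
  obtain ⟨C3, hC3, h3⟩ := HH_bound
  refine ⟨2 * C1 + 2 * (2 * C2) + 4 * C3, by finiteness, fun ε hε g hg => ?_⟩
  have hgm := hg.1
  have v0 : ∀ p : E × E × S2, ‖p.1 - p.1‖ ≤ |rho p| := fun p => by simp
  have w0 : ∀ p : E × E × S2, ‖p.2.1 - p.2.1‖ ≤ |rho p| := fun p => by simp
  have v1 : ∀ p : E × E × S2, ‖pv p.1 p.2.1 p.2.2 - p.1‖ ≤ |rho p| :=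
    fun p => (norm_pv_sub _ _ _).le
  have w1 : ∀ p : E × E × S2, ‖pw p.1 p.2.1 p.2.2 - p.2.1‖ ≤ |rho p| :=
    fun p => (norm_pw_sub _ _ _).le
  set P0 : E × E × S2 → ℝ := fun p => g p.1 * sM p.2.1 with hP0
  set P1 : E × E × S2 → ℝ := fun p => g (pv p.1 p.2.1 p.2.2) * sM (pw p.1 p.2.1 p.2.2) with hP1
  set Q0 : E × E × S2 → ℝ := fun p => sM p.1 * g p.2.1 with hQ0
  set Q1 : E × E × S2 → ℝ := fun p => sM (pv p.1 p.2.1 p.2.2) * g (pw p.1 p.2.1 p.2.2) with hQ1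
  set R0 : E × E × S2 → ℝ := fun p => g p.1 * sM (pw p.1 p.2.1 p.2.2) with hR0
  set R1 : E × E × S2 → ℝ := fun p => g (pv p.1 p.2.1 p.2.2) * sM p.2.1 with hR1
  set S0 : E × E × S2 → ℝ := fun p => sM p.1 * g (pw p.1 p.2.1 p.2.2) with hS0
  have mP0 : MemLp P0 2 (mm ε) := memLp2 hε hg dec_sM (by fun_prop) (by fun_prop) v0 w0
  have mP1 : MemLp P1 2 (mm ε) := memLp2 hε hg dec_sM (by fun_prop) (by fun_prop) v1 w1
  have mQ0 : MemLp Q0 2 (mm ε) := memLp2 hε dec_sM hg (by fun_prop) (by fun_prop) v0 w0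
  have mQ1 : MemLp Q1 2 (mm ε) := memLp2 hε dec_sM hg (by fun_prop) (by fun_prop) v1 w1
  have mR0 : MemLp R0 2 (mm ε) := memLp2 hε hg dec_sM (by fun_prop) (by fun_prop) v0 w1
  have mR1 : MemLp R1 2 (mm ε) := memLp2 hε hg dec_sM (by fun_prop) (by fun_prop) v1 w0
  have mS0 : MemLp S0 2 (mm ε) := memLp2 hε dec_sM hg (by fun_prop) (by fun_prop) v0 w1
  have im : ∀ {A B : E × E × S2 → ℝ}, MemLp A 2 (mm ε) → MemLp B 2 (mm ε) →
      Integrable (fun p => A p * B p) (mm ε) := fun hA hB => hA.integrable_mul hB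
  have ia : ∀ {A B : E × E × S2 → ℝ}, Integrable A (mm ε) → Integrable B (mm ε) →
      Integrable (fun p => A p + B p) (mm ε) := fun hA hB => hA.add hB
  -- behaviour under the symmetries
  have cP0 : ∀ p, P0 (coll p) = P1 p := fun p => rfl
  have cQ0 : ∀ p, Q0 (coll p) = Q1 p := fun p => rfl
  have cP1 : ∀ p, P1 (coll p) = P0 p := fun p => by simp only [hP1, hP0, coll, pv_pv, pw_pw]
  have cQ1 : ∀ p, Q1 (coll p) = Q0 p := fun p => by simp only [hQ1, hQ0, coll, pv_pv, pw_pw]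
  have cR0 : ∀ p, R0 (coll p) = R1 p := fun p => by simp only [hR0, hR1, coll, pw_pw]
  have sP0 : ∀ p, P0 (swp p) = Q0 p := fun p => mul_comm _ _
  have sP1 : ∀ p, P1 (swp p) = Q1 p := fun p => by
    simp only [hP1, hQ1, swp]; rw [pv_swap p.1, pw_swap p.1, mul_comm]
  have e1 : ∫ p, P1 p * P1 p ∂mm ε = ∫ p, P0 p * P0 p ∂mm ε := by
    rw [← int_coll ε fun p => P0 p * P0 p]; simp only [cP0]
  have e2 : ∫ p, Q0 p * Q0 p ∂mm ε = ∫ p, P0 p * P0 p ∂mm ε := by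
    rw [← int_swp ε fun p => P0 p * P0 p]; simp only [sP0]
  have e3 : ∫ p, Q1 p * Q1 p ∂mm ε = ∫ p, P0 p * P0 p ∂mm ε := by
    rw [← e2, ← int_coll ε fun p => Q0 p * Q0 p]; simp only [cQ0]
  have e4 : ∫ p, Q0 p * Q1 p ∂mm ε = ∫ p, P0 p * P1 p ∂mm ε := by
    rw [← int_swp ε fun p => P0 p * P1 p]; simp only [sP0, sP1]
  have e5 : ∫ p, P1 p * Q1 p ∂mm ε = ∫ p, P0 p * Q0 p ∂mm ε := by
    rw [← int_coll ε fun p => P0 p * Q0 p]; simp only [cP0, cQ0]
  have e6 : ∫ p, P1 p * Q0 p ∂mm ε = ∫ p, P0 p * Q1 p ∂mm ε := by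
    rw [← int_coll ε fun p => P0 p * Q1 p]; simp only [cP0, cQ1]
  have e7 : ∫ p, P1 p * R1 p ∂mm ε = ∫ p, P0 p * R0 p ∂mm ε := by
    rw [← int_coll ε fun p => P0 p * R0 p]; simp only [cP0, cR0]
  -- the three quadratic functionals
  have iD : Integrable (fun p => Inc (Sym g sM) p ^ 2) (mm ε) := by
    have m := (mP1.add mQ1).sub (mP0.add mQ0)
    refine (im m m).congr (ae_of_all _ fun p => ?_)
    simp only [Inc, Coll.Sym, Pi.sub_apply, Pi.add_apply, hP0, hP1, hQ0, hQ1]; ring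
  have xD : ∫ p, Inc (Sym g sM) p ^ 2 ∂mm ε
      = 4 * ∫ p, P0 p * P0 p ∂mm ε - 4 * ∫ p, P0 p * P1 p ∂mm ε
        + 4 * ∫ p, P0 p * Q0 p ∂mm ε - 4 * ∫ p, P0 p * Q1 p ∂mm ε := by
    have : (fun p => Inc (Sym g sM) p ^ 2) = fun p =>
        (((P1 p * P1 p + Q1 p * Q1 p) + (P0 p * P0 p + Q0 p * Q0 p))
          + (2 * (P1 p * Q1 p) + 2 * (P0 p * Q0 p)))
          - ((2 * (P0 p * P1 p) + 2 * (Q0 p * Q1 p)) + (2 * (P1 p * Q0 p) + 2 * (P0 p * Q1 p))) := by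
      funext p
      simp only [Inc, Coll.Sym, hP0, hP1, hQ0, hQ1]; ring
    have a1 := ia (im mP1 mP1) (im mQ1 mQ1)
    have a2 := ia (im mP0 mP0) (im mQ0 mQ0)
    have a3 := ia ((im mP1 mQ1).const_mul 2) ((im mP0 mQ0).const_mul 2)
    have a4 := ia ((im mP0 mP1).const_mul 2) ((im mQ0 mQ1).const_mul 2)
    have a5 := ia ((im mP1 mQ0).const_mul 2) ((im mP0 mQ1).const_mul 2)
    rw [this, integral_sub (ia (ia a1 a2) a3) (ia a4 a5), integral_add (ia a1 a2) a3,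
      integral_add a1 a2, integral_add a4 a5, integral_add (im mP1 mP1) (im mQ1 mQ1),
      integral_add (im mP0 mP0) (im mQ0 mQ0),
      integral_add ((im mP1 mQ1).const_mul 2) ((im mP0 mQ0).const_mul 2),
      integral_add ((im mP0 mP1).const_mul 2) ((im mQ0 mQ1).const_mul 2),
      integral_add ((im mP1 mQ0).const_mul 2) ((im mP0 mQ1).const_mul 2)]
    simp only [integral_const_mul]
    rw [e1, e2, e3, e4, e5, e6]; ring
  have iG : Integrable (fun p : E × E × S2 => (g (pv p.1 p.2.1 p.2.2) - g p.1) ^ 2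
      * (sM p.2.1 * sM (pw p.1 p.2.1 p.2.2))) (mm ε) := by
    refine (im (mR1.sub mP0) (mP1.sub mR0)).congr (ae_of_all _ fun p => ?_)
    simp only [Pi.sub_apply, hP0, hP1, hR0, hR1]; ring
  have xG : ∫ p, (g (pv p.1 p.2.1 p.2.2) - g p.1) ^ 2 * (sM p.2.1 * sM (pw p.1 p.2.1 p.2.2)) ∂mm ε
      = 2 * ∫ p, P0 p * R0 p ∂mm ε - 2 * ∫ p, P0 p * P1 p ∂mm ε := by
    have : (fun p : E × E × S2 => (g (pv p.1 p.2.1 p.2.2) - g p.1) ^ 2
        * (sM p.2.1 * sM (pw p.1 p.2.1 p.2.2))) = fun p =>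
        (P1 p * R1 p + P0 p * R0 p) - 2 * (P0 p * P1 p) := by
      funext p
      simp only [hP0, hP1, hR0, hR1]; ring
    rw [this, integral_sub (ia (im mP1 mR1) (im mP0 mR0)) ((im mP0 mP1).const_mul 2),
      integral_add (im mP1 mR1) (im mP0 mR0), integral_const_mul, e7]; ring
  have iT : Integrable (fun p : E × E × S2 =>
      g p.1 ^ 2 * (sM p.2.1 - sM (pw p.1 p.2.1 p.2.2)) ^ 2) (mm ε) := by
    refine (im (mP0.sub mR0) (mP0.sub mR0)).congr (ae_of_all _ fun p => ?_)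
    simp only [Pi.sub_apply, hP0, hR0]; ring
  have xT : ∫ p, g p.1 ^ 2 * (sM p.2.1 - sM (pw p.1 p.2.1 p.2.2)) ^ 2 ∂mm ε
      = ∫ p, P0 p * P0 p ∂mm ε + ∫ p, R0 p * R0 p ∂mm ε - 2 * ∫ p, P0 p * R0 p ∂mm ε := by
    have : (fun p : E × E × S2 => g p.1 ^ 2 * (sM p.2.1 - sM (pw p.1 p.2.1 p.2.2)) ^ 2)
        = fun p => (P0 p * P0 p + R0 p * R0 p) - 2 * (P0 p * R0 p) := by
      funext p
      simp only [hP0, hR0]; ring
    rw [this, integral_sub (ia (im mP0 mP0) (im mR0 mR0)) ((im mP0 mR0).const_mul 2),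
      integral_add (im mP0 mP0) (im mR0 mR0), integral_const_mul]
  -- the error terms
  have hL := L2L_ne_top hg
  have hN := N8_ne_top hg
  have y1 : ∫ p, R0 p * R0 p ∂mm ε - ∫ p, P0 p * P0 p ∂mm ε ≤ (2 * C1 * N8 g).toReal := by
    have f0 : (fun p : E × E × S2 => g p.1 ^ 2 * sM p.2.1 ^ 2) = fun p => P0 p * P0 p := by
      funext p; simp only [hP0]; ring
    have f1 : (fun p : E × E × S2 => g p.1 ^ 2 * sM (pw p.1 p.2.1 p.2.2) ^ 2)
        = fun p => R0 p * R0 p := by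
      funext p; simp only [hR0]; ring
    have hne := ENNReal.mul_ne_top hC1 hN
    have := cancel ε (H := fun q => g q.1 ^ 2 * sM q.2 ^ 2) (by fun_prop)
      (by simp only [f0]; exact im mP0 mP0) (by simp only [f1]; exact im mR0 mR0)
      (ne_top_of_le_ne_top hne (h1 g hgm))
    simp only [f0, f1] at this
    exact this.trans (two_toReal hne (h1 g hgm))
  have y2 : ∫ p, R0 p * S0 p ∂mm ε - ∫ p, P0 p * Q0 p ∂mm ε ≤ (2 * C2 * L2L g).toReal := by
    have f0 : (fun p : E × E × S2 => g p.1 * sM p.1 * (g p.2.1 * sM p.2.1))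
        = fun p => P0 p * Q0 p := by
      funext p; simp only [hP0, hQ0]; ring
    have f1 : (fun p : E × E × S2 => g p.1 * sM p.1
        * (g (pw p.1 p.2.1 p.2.2) * sM (pw p.1 p.2.1 p.2.2))) = fun p => R0 p * S0 p := by
      funext p; simp only [hR0, hS0]; ring
    have hne := ENNReal.mul_ne_top hC2 hL
    have := cancel ε (H := fun q => g q.1 * sM q.1 * (g q.2 * sM q.2)) (by fun_prop)
      (by simp only [f0]; exact im mP0 mQ0) (by simp only [f1]; exact im mR0 mS0)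
      (ne_top_of_le_ne_top hne (h2 g hgm))
    simp only [f0, f1] at this
    exact this.trans (two_toReal hne (h2 g hgm))
  have y3 : ∫ p, P0 p * Q1 p ∂mm ε - ∫ p, R0 p * S0 p ∂mm ε
      ≤ (C3 * L2L g + C3 * L2L g).toReal := by
    rw [← integral_sub (im mP0 mQ1) (im mR0 mS0)]
    refine int_le_toReal ((im mP0 mQ1).sub (im mR0 mS0)) (by finiteness) ?_
    have hm : Measurable fun p : E × E × S2 =>
        ENNReal.ofReal (g p.1 ^ 2) * ENNReal.ofReal (HH p) := by fun_prop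
    have hs := ((mp_swp ε).comp (mp_coll ε)).lintegral_comp hm
    simp only [Function.comp, HH_symm] at hs
    refine le_trans (lintegral_mono (g := fun p => ENNReal.ofReal (g p.1 ^ 2)
      * ENNReal.ofReal (HH p) + ENNReal.ofReal (g (swp (coll p)).1 ^ 2) * ENNReal.ofReal (HH p))
      fun p => ?_) ?_
    · simp only
      rw [← add_mul, ← ENNReal.ofReal_add (sq_nonneg _) (sq_nonneg _),
        ← ENNReal.ofReal_mul (by positivity)]
      refine ENNReal.ofReal_le_ofReal ?_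
      have a1 : P0 p * Q1 p - R0 p * S0 p = g p.1 * g (pw p.1 p.2.1 p.2.2)
          * (sM p.2.1 * sM (pv p.1 p.2.1 p.2.2) - sM p.1 * sM (pw p.1 p.2.1 p.2.2)) := by
        simp only [hP0, hQ1, hR0, hS0]; ring
      rw [Pi.sub_apply, a1]
      refine (le_abs_self _).trans ?_
      rw [abs_mul]
      refine mul_le_mul_of_nonneg_right ?_ (abs_nonneg _)
      show _ ≤ g p.1 ^ 2 + g (pw p.1 p.2.1 p.2.2) ^ 2
      rw [abs_le]
      constructor <;> nlinarith [sq_nonneg (g p.1 - g (pw p.1 p.2.1 p.2.2)),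
        sq_nonneg (g p.1 + g (pw p.1 p.2.1 p.2.2))]
    · rw [lintegral_add_left hm, hs]
      exact add_le_add (h3 ε g hgm) (h3 ε g hgm)
  have nD : 0 ≤ ∫ p, Inc (Sym g sM) p ^ 2 ∂mm ε := integral_nonneg fun p => sq_nonneg _
  have hDL : ENNReal.ofReal (∫ p, Inc (Sym g sM) p ^ 2 ∂mm ε) ≤ DL g := by
    have hm : Measurable (Inc (Sym g sM)) := measurable_Inc (by unfold Coll.Sym; fun_prop)
    rw [ofReal_integral_eq_lintegral_ofReal iD (ae_of_all _ fun p => sq_nonneg _),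
      lint_mm ε (by fun_prop)]
    refine lintegral_mono fun p => ?_
    simp only
    rw [← ENNReal.ofReal_mul (kc_nonneg _ _)]
    exact ENNReal.ofReal_le_ofReal (mul_le_mul_of_nonneg_right (kc_le ε p) (sq_nonneg _))
  have pG : ∀ p : E × E × S2, 0 ≤ (g (pv p.1 p.2.1 p.2.2) - g p.1) ^ 2
      * (sM p.2.1 * sM (pw p.1 p.2.1 p.2.2)) :=
    fun p => mul_nonneg (sq_nonneg _) (mul_pos (sM_pos _) (sM_pos _)).le
  have pT : ∀ p : E × E × S2, 0 ≤ g p.1 ^ 2 * (sM p.2.1 - sM (pw p.1 p.2.1 p.2.2)) ^ 2 :=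
    fun p => mul_nonneg (sq_nonneg _) (sq_nonneg _)
  have hTT : TT ε g = ENNReal.ofReal
      (∫ p, g p.1 ^ 2 * (sM p.2.1 - sM (pw p.1 p.2.1 p.2.2)) ^ 2 ∂mm ε) := by
    rw [ofReal_integral_eq_lintegral_ofReal iT (ae_of_all _ pT)]
    exact lintegral_congr fun p => (ENNReal.ofReal_mul (sq_nonneg _)).symm
  rw [GG, ← ofReal_integral_eq_lintegral_ofReal iG (ae_of_all _ pG), hTT,
    ← ENNReal.ofReal_add (integral_nonneg pG) (integral_nonneg pT)]
  calc _ ≤ ENNReal.ofReal (∫ p, Inc (Sym g sM) p ^ 2 ∂mm ε + (2 * C1 * N8 g).toReal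
        + (((2 * C2 * L2L g).toReal + (2 * C2 * L2L g).toReal) + ((C3 * L2L g + C3 * L2L g).toReal
          + (C3 * L2L g + C3 * L2L g).toReal))) := by
        refine ENNReal.ofReal_le_ofReal ?_
        rw [xG, xT]
        rw [xD] at nD ⊢
        linarith
    _ ≤ DL g + 2 * C1 * N8 g + ((2 * C2 * L2L g + 2 * C2 * L2L g)
        + ((C3 * L2L g + C3 * L2L g) + (C3 * L2L g + C3 * L2L g))) := by
        refine ENNReal.ofReal_add_le.trans (add_le_add (ENNReal.ofReal_add_le.trans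
          (add_le_add hDL ENNReal.ofReal_toReal_le)) (ENNReal.ofReal_add_le.trans (add_le_add
            (ENNReal.ofReal_add_le.trans (add_le_add ENNReal.ofReal_toReal_le
              ENNReal.ofReal_toReal_le)) (ENNReal.ofReal_add_le.trans
                (add_le_add ENNReal.ofReal_toReal_le ENNReal.ofReal_toReal_le)))))
    _ ≤ _ := by
        refine add_le_add (add_le_add le_rfl (mul_le_mul_left (le_add_right le_self_add) _)) ?_
        calc _ = (2 * (2 * C2) + 4 * C3) * L2L g := by ring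
          _ ≤ _ := mul_le_mul_left (by rw [add_assoc]; exact le_add_self) _

lemma NW_le_TT : ∃ C : ℝ≥0∞, C ≠ ⊤ ∧ ∀ ε : ℝ, ε ≤ 1 / 2 → ∀ g : E → ℝ, Measurable g →
    NW g ≤ C * (TT ε g + L2L g) := by
  obtain ⟨c, hc, h⟩ := nu_lower
  refine ⟨ENNReal.ofReal (c⁻¹ + 3 ^ 29), ENNReal.ofReal_ne_top, fun ε hε g hg => ?_⟩
  rw [TT, lint_mm_fst ε (G := fun v => ENNReal.ofReal (g v ^ 2)) (by fun_prop) (by fun_prop), L2L,
    ← lintegral_add_right _ (by fun_prop), ← lintegral_const_mul' _ _ ENNReal.ofReal_ne_top]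
  refine lintegral_mono fun v => ?_
  simp only
  by_cases hv : 2 ≤ ‖v‖
  · refine le_trans ?_ (mul_le_mul_right (le_add_right (mul_le_mul_right (h ε hε v hv) _)) _)
    rw [← ENNReal.ofReal_mul (sq_nonneg _), ← ENNReal.ofReal_mul (by positivity)]
    refine ENNReal.ofReal_le_ofReal ?_
    calc (1 + ‖v‖) ^ (2 : ℝ) * g v ^ 2
        = c⁻¹ * (g v ^ 2 * (c * (1 + ‖v‖) ^ (2 : ℝ))) := by field_simp
      _ ≤ _ := by gcongr; norm_num
  · refine le_trans ?_ (mul_le_mul_right le_add_self _)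
    rw [← ENNReal.ofReal_mul (by positivity)]
    refine ENNReal.ofReal_le_ofReal (mul_le_mul_of_nonneg_right ?_ (sq_nonneg _))
    calc (1 + ‖v‖) ^ (2 : ℝ) ≤ (1 + ‖v‖) ^ ((29 : ℕ) : ℝ) :=
          rpow_le_rpow_of_exponent_le (by linarith [norm_nonneg v]) (by norm_num)
      _ ≤ 3 ^ 29 := by rw [rpow_natCast]; gcongr; linarith
      _ ≤ _ := le_add_of_nonneg_left (by positivity)

lemma N8_le {η : ℝ} (hη : 0 < η) (g : E → ℝ) (hg : Measurable g) :
    N8 g ≤ ENNReal.ofReal η * NW g + ENNReal.ofReal ((η⁻¹ ^ 2) ^ 1) * L2L g := by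
  rw [N8, NW, L2L, ← lintegral_const_mul' _ _ ENNReal.ofReal_ne_top,
    ← lintegral_const_mul' _ _ ENNReal.ofReal_ne_top, ← lintegral_add_right _ (by fun_prop)]
  refine lintegral_mono fun v => ?_
  simp only
  have h1 : 0 < 1 + ‖v‖ := by positivity
  by_cases hv : 1 + ‖v‖ ≤ η⁻¹ ^ 2
  · refine le_add_left ?_
    rw [← ENNReal.ofReal_mul (by positivity)]
    refine ENNReal.ofReal_le_ofReal ?_
    gcongr
  · refine le_add_right ?_
    rw [← ENNReal.ofReal_mul hη.le, ← mul_assoc]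
    refine ENNReal.ofReal_le_ofReal (mul_le_mul_of_nonneg_right ?_ (sq_nonneg _))
    have h2 : (1 + ‖v‖) ^ (2 : ℝ) = (1 + ‖v‖) * (1 + ‖v‖) ^ 1 := by
      rw [rpow_two]; ring
    have h3 : η⁻¹ ≤ 1 + ‖v‖ := (le_sqrt_of_sq_le (not_le.1 hv).le).trans
      (sqrt_le_iff.2 ⟨h1.le, by nlinarith [norm_nonneg v]⟩)
    rw [h2, ← mul_assoc]
    refine le_mul_of_one_le_left (by positivity) ?_
    calc 1 = η * η⁻¹ := (mul_inv_cancel₀ hη.ne').symm
      _ ≤ _ := by gcongr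

end Pool.Agent.BoltzM.C3
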